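import Mathlib

/-!
# MP_2928c2_al: the variety of the grammic monoid of rank `n` and finite monoids

`G n` is the grammic monoid of rank `n`. We show: for `n ≥ 1` there is a finite monoid `F` with
`var (G n) = var F` or `var (G n) = var F ∨ Com` if and only if `n = 1`. For `n ≥ 2` even no
semigroup `F` with an identity `x ^ m = x ^ (m + k)` (`m, k ≥ 1`) has `G n` in `var F ∨ Com`.

The identity `x ^ m * y * x ^ (m + k) = x ^ (m + k) * y * x ^ m` holds in `F` and in all commutative
semigroups; it fails in `G n` for `x = 2` and `y = 1 ^ (m + k)`: the longest weakly increasing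
subsequences of the two words `2 ^ m 1 ^ (m + k) 2 ^ (m + k)` and `2 ^ (m + k) 1 ^ (m + k) 2 ^ m`
have the lengths `2 m + 2 k` and `2 m + k`.
-/

set_option autoImplicit false

namespace Pool.Agent.Results.MP_2928c2_al.OnlyRankOne

/-- a semigroup identity `u = v`: a pair of non-empty words in the variables `0, 1, 2, ...` -/
abbrev Identity : Type := FreeSemigroup ℕ × FreeSemigroup ℕ

/-- the semigroup `S` satisfies the identity `e`: both sides get the same value for every
substitution of elements of `S` for the variables -/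
def Satisfies (S : Type) [Semigroup S] (e : Identity) : Prop :=
  ∀ f : ℕ → S, FreeSemigroup.lift f e.1 = FreeSemigroup.lift f e.2

/-- a class of semigroups -/
abbrev SgClass : Type 1 := ∀ S : Type, Semigroup S → Prop

/-- `V` is a variety of semigroups: the class of all semigroups that satisfy some set of
identities -/
def IsVariety (V : SgClass) : Prop :=
  ∃ E : Set Identity, ∀ (S : Type) (i : Semigroup S), V S i ↔ ∀ e ∈ E, @Satisfies S i e

/-- `var S` is the class of all semigroups that satisfy every identity of `S` -/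
def var (S : Type) [Semigroup S] : SgClass :=
  fun T j => ∀ e : Identity, Satisfies S e → @Satisfies T j e

/-- the class of all commutative semigroups -/
def Com : SgClass := fun T _ => ∀ a b : T, a * b = b * a

/-- inclusion of classes of semigroups -/
def Sub (U V : SgClass) : Prop := ∀ (S : Type) (i : Semigroup S), U S i → V S i

/-- `V = U ∨ W`: `V` is the smallest variety that contains `U` and `W` -/
def IsJoin (U W V : SgClass) : Prop :=
  IsVariety V ∧ Sub U V ∧ Sub W V ∧
    ∀ V' : SgClass, IsVariety V' → Sub U V' → Sub W V' → Sub V V'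

/-- `s` is a weakly increasing subsequence of `w` all of whose letters are in `{p, …, q}` -/
def IsIncr {n : ℕ} (p q : Fin n) (w : FreeMonoid (Fin n)) (s : List (Fin n)) : Prop :=
  s.Sublist w.toList ∧ s.Pairwise (· ≤ ·) ∧ ∀ a ∈ s, p ≤ a ∧ a ≤ q

/-- `ℓ_{p,q}(w)`: the largest length of a weakly increasing subsequence of `w` all of whose letters
are in `{p, …, q}` -/
noncomputable def ell {n : ℕ} (p q : Fin n) (w : FreeMonoid (Fin n)) : ℕ :=
  sSup {k | ∃ s : List (Fin n), IsIncr p q w s ∧ s.length = k}

section ell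

variable {n : ℕ} {p q : Fin n} {w : FreeMonoid (Fin n)}

lemma bdd (p q : Fin n) (w : FreeMonoid (Fin n)) :
    BddAbove {k | ∃ s : List (Fin n), IsIncr p q w s ∧ s.length = k} := by
  refine ⟨w.toList.length, ?_⟩
  rintro k ⟨s, hs, rfl⟩
  exact hs.1.length_le

lemma le_ell {s : List (Fin n)} (hs : IsIncr p q w s) : s.length ≤ ell p q w :=
  le_csSup (bdd p q w) ⟨s, hs, rfl⟩

lemma exists_ell (p q : Fin n) (w : FreeMonoid (Fin n)) :
    ∃ s : List (Fin n), IsIncr p q w s ∧ s.length = ell p q w := by
  have h := Nat.sSup_mem (s := {k | ∃ s : List (Fin n), IsIncr p q w s ∧ s.length = k})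
    ⟨0, [], ⟨List.nil_sublist _, List.Pairwise.nil, by simp⟩, rfl⟩ (bdd p q w)
  exact h

lemma ell_mul_le {u v u' v' : FreeMonoid (Fin n)}
    (hu : ∀ p q : Fin n, p ≤ q → ell p q u = ell p q u')
    (hv : ∀ p q : Fin n, p ≤ q → ell p q v = ell p q v') (hpq : p ≤ q) :
    ell p q (u * v) ≤ ell p q (u' * v') := by
  obtain ⟨s, ⟨hs1, hs2, hs3⟩, hs⟩ := exists_ell p q (u * v)
  rw [FreeMonoid.toList_mul, List.sublist_append_iff] at hs1
  obtain ⟨s1, s2, rfl, h1, h2⟩ := hs1
  rw [List.pairwise_append] at hs2
  obtain ⟨hp1, hp2, hc⟩ := hs2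
  obtain ⟨r, hpr, hrq, hr1, hr2⟩ : ∃ r : Fin n, p ≤ r ∧ r ≤ q ∧ (∀ a ∈ s1, a ≤ r) ∧
      ∀ b ∈ s2, r ≤ b := by
    by_cases hne : s1 = []
    · subst hne
      exact ⟨p, le_rfl, hpq, by simp, fun b hb => (hs3 b (by simpa using hb)).1⟩
    · have hne' : s1.toFinset.Nonempty := by
        rwa [List.toFinset_nonempty_iff]
      have hm := s1.toFinset.max'_mem hne'
      rw [List.mem_toFinset] at hm
      refine ⟨s1.toFinset.max' hne', (hs3 _ (List.mem_append_left _ hm)).1,
        (hs3 _ (List.mem_append_left _ hm)).2, fun a ha => ?_, fun b hb => hc _ hm b hb⟩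
      exact s1.toFinset.le_max' a (List.mem_toFinset.2 ha)
  obtain ⟨t1, ⟨ht1, ht1p, ht1c⟩, hl1⟩ := exists_ell p r u'
  obtain ⟨t2, ⟨ht2, ht2p, ht2c⟩, hl2⟩ := exists_ell r q v'
  have e1 : s1.length ≤ ell p r u :=
    le_ell ⟨h1, hp1, fun a ha => ⟨(hs3 a (List.mem_append_left _ ha)).1, hr1 a ha⟩⟩
  have e2 : s2.length ≤ ell r q v :=
    le_ell ⟨h2, hp2, fun a ha => ⟨hr2 a ha, (hs3 a (List.mem_append_right _ ha)).2⟩⟩
  have e3 : (t1 ++ t2).length ≤ ell p q (u' * v') := by
    refine le_ell ⟨?_, ?_, ?_⟩
    · rw [FreeMonoid.toList_mul]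
      exact ht1.append ht2
    · rw [List.pairwise_append]
      exact ⟨ht1p, ht2p, fun a ha b hb => (ht1c a ha).2.trans (ht2c b hb).1⟩
    · intro a ha
      rcases List.mem_append.1 ha with h | h
      · exact ⟨(ht1c a h).1, (ht1c a h).2.trans hrq⟩
      · exact ⟨hpr.trans (ht2c a h).1, (ht2c a h).2⟩
  rw [hu p r hpr] at e1
  rw [hv r q hrq] at e2
  rw [List.length_append] at e3 hs
  omega

end ell

/-- the grammic congruence on the free monoid over `{1 < 2 < … < n}` (here `Fin n`) -/
def gram (n : ℕ) : Con (FreeMonoid (Fin n)) where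
  r u v := ∀ p q : Fin n, p ≤ q → ell p q u = ell p q v
  iseqv := ⟨fun _ _ _ _ => rfl, fun h p q hpq => (h p q hpq).symm,
    fun h h' p q hpq => (h p q hpq).trans (h' p q hpq)⟩
  mul' := fun {_ _ _ _} h1 h2 _ _ hpq => le_antisymm (ell_mul_le h1 h2 hpq)
    (ell_mul_le (fun a b h => (h1 a b h).symm) (fun a b h => (h2 a b h).symm) hpq)

/-- the grammic monoid of rank `n` -/
abbrev G (n : ℕ) : Type := (gram n).Quotient

/-! ### Evaluation of words -/

lemma foldl_monoid {M : Type*} [Monoid M] (f : ℕ → M) (l : List ℕ) (x : M) :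
    l.foldl (fun a b => a * f b) x = x * (l.map f).prod := by
  induction l generalizing x with
  | nil => simp
  | cons b l ih => simp [ih, mul_assoc]

lemma lift_monoid {M : Type*} [Monoid M] (f : ℕ → M) (w : FreeSemigroup ℕ) :
    FreeSemigroup.lift f w = ((w.head :: w.tail).map f).prod := by
  have h : FreeSemigroup.lift f w = w.tail.foldl (fun a b => a * f b) (f w.head) := rfl
  rw [h, foldl_monoid]
  simp

lemma foldl_coe {T : Type*} [Semigroup T] (f : ℕ → T) (l : List ℕ) (x : T) :
    ((l.foldl (fun a b => a * f b) x : T) : WithOne T) =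
      l.foldl (fun a b => a * ((f b : T) : WithOne T)) (x : WithOne T) := by
  induction l generalizing x with
  | nil => simp
  | cons b l ih => simp [ih]

lemma lift_coe {T : Type*} [Semigroup T] (f : ℕ → T) (w : FreeSemigroup ℕ) :
    ((FreeSemigroup.lift f w : T) : WithOne T) =
      ((w.head :: w.tail).map (fun i => ((f i : T) : WithOne T))).prod := by
  have h : FreeSemigroup.lift f w = w.tail.foldl (fun a b => a * f b) (f w.head) := rfl
  rw [h, foldl_coe, foldl_monoid]
  simp

/-- the word `x ^ (m + 1) y x ^ (j + 1)` -/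
def wd (m j : ℕ) : FreeSemigroup ℕ :=
  ⟨0, List.replicate m 0 ++ 1 :: List.replicate (j + 1) 0⟩

/-- the word `x ^ (m + 1)` -/
def pw (m : ℕ) : FreeSemigroup ℕ := ⟨0, List.replicate m 0⟩

lemma prod_wd {M : Type*} [Monoid M] (f : ℕ → M) (m j : ℕ) :
    (((wd m j).head :: (wd m j).tail).map f).prod = f 0 ^ (m + 1) * f 1 * f 0 ^ (j + 1) := by
  simp [wd, pow_succ', mul_assoc]

lemma prod_pw {M : Type*} [Monoid M] (f : ℕ → M) (m : ℕ) :
    (((pw m).head :: (pw m).tail).map f).prod = f 0 ^ (m + 1) := by
  simp [pw, pow_succ']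

/-- the identity `x ^ (m + 1) y x ^ (m + k + 1) = x ^ (m + k + 1) y x ^ (m + 1)` -/
def idt (m k : ℕ) : Identity := (wd m (m + k), wd (m + k) m)

lemma satisfies_of_pw {F : Type} [Semigroup F] {m k : ℕ} (h : Satisfies F (pw m, pw (m + k))) :
    Satisfies F (idt m k) := by
  intro f
  have h1 := congrArg (fun a : F => (a : WithOne F)) (h f)
  simp only [lift_coe, prod_pw] at h1
  apply WithOne.coe_injective
  show ((FreeSemigroup.lift f (wd m (m + k)) : F) : WithOne F) =
    ((FreeSemigroup.lift f (wd (m + k) m) : F) : WithOne F)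
  rw [lift_coe, lift_coe, prod_wd, prod_wd, ← h1]

lemma com_satisfies (m k : ℕ) (T : Type) (i : Semigroup T) (h : Com T i) :
    Satisfies T (idt m k) := by
  intro f
  let _ : CommSemigroup T := { i with mul_comm := h }
  apply WithOne.coe_injective
  show ((FreeSemigroup.lift f (wd m (m + k)) : T) : WithOne T) =
    ((FreeSemigroup.lift f (wd (m + k) m) : T) : WithOne T)
  rw [lift_coe, lift_coe, prod_wd, prod_wd]
  ac_rfl

/-! ### Ranks at least two -/

lemma toList_of_pow {n : ℕ} (a : Fin n) (m : ℕ) :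
    ((FreeMonoid.of a) ^ m).toList = List.replicate m a := by
  induction m with
  | zero => rfl
  | succ m ih => rw [pow_succ', FreeMonoid.toList_mul, ih]; rfl

lemma not_satisfies {n : ℕ} (hn : 2 ≤ n) (m k : ℕ) (hk : 1 ≤ k) :
    ¬ Satisfies (G n) (idt m k) := by
  intro h
  set p : Fin n := ⟨0, by omega⟩ with hp
  set q : Fin n := ⟨1, by omega⟩ with hq
  have hpq : p < q := by simp [hp, hq]
  set x : FreeMonoid (Fin n) := FreeMonoid.of q with hx
  set y : FreeMonoid (Fin n) := FreeMonoid.of p ^ (m + 1 + k) with hy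
  have h1 := h (fun i => if i = 0 then (gram n).mk' x else (gram n).mk' y)
  have h2 : (gram n).mk' (x ^ (m + 1) * y * x ^ (m + k + 1)) =
      (gram n).mk' (x ^ (m + k + 1) * y * x ^ (m + 1)) := by
    have e1 := h1
    simp only [idt] at e1
    rw [lift_monoid, lift_monoid, prod_wd, prod_wd] at e1
    simpa only [map_mul, map_pow, if_true, if_neg one_ne_zero] using e1
  have h3 : ell p q (x ^ (m + 1) * y * x ^ (m + k + 1)) =
      ell p q (x ^ (m + k + 1) * y * x ^ (m + 1)) :=
    (Con.eq (gram n)).1 h2 p q hpq.le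
  have tx : ∀ j : ℕ, (x ^ j).toList = List.replicate j q := fun j => toList_of_pow q j
  have ty : y.toList = List.replicate (m + 1 + k) p := toList_of_pow p _
  -- lower bound
  have low : (m + 1 + k) + (m + k + 1) ≤ ell p q (x ^ (m + 1) * y * x ^ (m + k + 1)) := by
    have h4 : IsIncr p q (x ^ (m + 1) * y * x ^ (m + k + 1))
        (List.replicate (m + 1 + k) p ++ List.replicate (m + k + 1) q) := by
      refine ⟨?_, ?_, ?_⟩
      · rw [FreeMonoid.toList_mul, FreeMonoid.toList_mul, tx, tx, ty]
        exact (List.sublist_append_right _ _).append (List.Sublist.refl _)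
      · rw [List.pairwise_append]
        refine ⟨List.pairwise_replicate.2 (Or.inr le_rfl),
          List.pairwise_replicate.2 (Or.inr le_rfl), fun a ha b hb => ?_⟩
        rw [List.eq_of_mem_replicate ha, List.eq_of_mem_replicate hb]
        exact hpq.le
      · intro a ha
        rcases List.mem_append.1 ha with h | h
        · rw [List.eq_of_mem_replicate h]; exact ⟨le_rfl, hpq.le⟩
        · rw [List.eq_of_mem_replicate h]; exact ⟨hpq.le, le_rfl⟩
    have h5 := le_ell h4
    simpa using h5
  -- upper bound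
  have up : ell p q (x ^ (m + k + 1) * y * x ^ (m + 1)) ≤ (m + k + 1) + (m + 1) := by
    obtain ⟨s, ⟨hs1, hs2, hs3⟩, hs⟩ := exists_ell p q (x ^ (m + k + 1) * y * x ^ (m + 1))
    rw [← hs]
    rw [FreeMonoid.toList_mul, FreeMonoid.toList_mul, tx, tx, ty, List.sublist_append_iff] at hs1
    obtain ⟨s12, s3, rfl, h12, h3'⟩ := hs1
    rw [List.sublist_append_iff] at h12
    obtain ⟨s1, s2, rfl, h1', h2'⟩ := h12
    have l1 := h1'.length_le
    have l2 := h2'.length_le
    have l3 := h3'.length_le
    rw [List.length_replicate] at l1 l2 l3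
    rw [List.length_append, List.length_append]
    by_cases hne1 : s1 = []
    · subst hne1
      simp only [List.length_nil]
      omega
    · by_cases hne2 : s2 = []
      · subst hne2
        simp only [List.length_nil]
        omega
      · exfalso
        obtain ⟨a, ha⟩ := List.exists_mem_of_ne_nil _ hne1
        obtain ⟨b, hb⟩ := List.exists_mem_of_ne_nil _ hne2
        have hab : a ≤ b := by
          rw [List.pairwise_append] at hs2
          have h6 := hs2.1
          rw [List.pairwise_append] at h6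
          exact h6.2.2 a ha b hb
        rw [List.eq_of_mem_replicate (h1'.subset ha),
          List.eq_of_mem_replicate (h2'.subset hb)] at hab
        exact absurd hab (not_le.2 hpq)
  omega

/-- an equational class is a variety -/
lemma isVariety_single (e : Identity) : IsVariety (fun T j => @Satisfies T j e) :=
  ⟨{e}, fun T j => by simp⟩

lemma not_join {n : ℕ} (hn : 2 ≤ n) (F : Type) [Semigroup F] (m k : ℕ) (hk : 1 ≤ k)
    (h : Satisfies F (pw m, pw (m + k))) (V : SgClass) (hV : IsJoin (var F) Com V) :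
    ¬ V (G n) inferInstance := by
  intro hG
  have h1 : Sub (var F) (fun T j => @Satisfies T j (idt m k)) :=
    fun T j hT => hT _ (satisfies_of_pw h)
  have h2 : Sub Com (fun T j => @Satisfies T j (idt m k)) :=
    fun T j hT => com_satisfies m k T j hT
  exact not_satisfies hn m k hk (hV.2.2.2 _ (isVariety_single _) h1 h2 _ _ hG)

lemma finite_pow (F : Type) [Monoid F] [Finite F] :
    ∃ m k : ℕ, 1 ≤ k ∧ Satisfies F (pw m, pw (m + k)) := by
  obtain ⟨a, b, hab, h⟩ := Finite.exists_ne_map_eq_of_infinite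
    (fun i : ℕ => fun x : F => x ^ (i + 1))
  have key : ∀ a b : ℕ, a < b → (fun x : F => x ^ (a + 1)) = (fun x : F => x ^ (b + 1)) →
      ∃ m k : ℕ, 1 ≤ k ∧ Satisfies F (pw m, pw (m + k)) := by
    intro a b hlt h
    refine ⟨a, b - a, by omega, fun f => ?_⟩
    show FreeSemigroup.lift f (pw a) = FreeSemigroup.lift f (pw (a + (b - a)))
    rw [lift_monoid, lift_monoid, prod_pw, prod_pw, Nat.add_sub_cancel' hlt.le]
    exact congrFun h (f 0)
  rcases lt_or_gt_of_ne hab with h1 | h1
  · exact key a b h1 h
  · exact key b a h1 h.symm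

/-! ### Rank one -/

lemma isVariety_var (S : Type) [Semigroup S] : IsVariety (var S) :=
  ⟨{e | Satisfies S e}, fun _ _ => Iff.rfl⟩

lemma mem_var (S : Type) [i : Semigroup S] : var S S i := fun _ h => h

lemma G_one_comm (a b : G 1) : a * b = b * a := by
  induction a, b using Con.induction_on₂ with
  | _ a b =>
    have h : a * b = b * a := by
      apply FreeMonoid.toList.injective
      rw [FreeMonoid.toList_mul, FreeMonoid.toList_mul]
      apply List.ext_getElem
      · simp [add_comm]
      · intro i _ _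
        exact Subsingleton.elim _ _
    rw [← Con.coe_mul, ← Con.coe_mul, h]

lemma prod_ite {M : Type*} [Monoid M] (g : M) (x : ℕ) (l : List ℕ) :
    (l.map (fun i => if i = x then g else 1)).prod = g ^ l.count x := by
  induction l with
  | nil => simp
  | cons b l ih =>
    rw [List.map_cons, List.prod_cons, ih, List.count_cons]
    by_cases hb : b = x
    · simp [hb, pow_succ']
    · simp [hb]

lemma ell_one (m : ℕ) : ell (0 : Fin 1) 0 (FreeMonoid.of (0 : Fin 1) ^ m) = m := by
  apply le_antisymm
  · obtain ⟨s, hs, hl⟩ := exists_ell (0 : Fin 1) 0 (FreeMonoid.of (0 : Fin 1) ^ m)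
    rw [← hl]
    have h1 := hs.1.length_le
    rwa [toList_of_pow, List.length_replicate] at h1
  · have h : IsIncr (0 : Fin 1) 0 (FreeMonoid.of (0 : Fin 1) ^ m) (List.replicate m 0) := by
      refine ⟨?_, List.pairwise_replicate.2 (Or.inr le_rfl), fun a _ => ⟨?_, ?_⟩⟩
      · rw [toList_of_pow]
      · exact (Subsingleton.elim _ _).le
      · exact (Subsingleton.elim _ _).le
    simpa using le_ell h

lemma com_sub : Sub Com (var (G 1)) := by
  intro T i hT e he
  have hperm : (e.1.head :: e.1.tail).Perm (e.2.head :: e.2.tail) := by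
    rw [List.perm_iff_count]
    intro x
    have h1 := he (fun i => if i = x then (gram 1).mk' (FreeMonoid.of 0) else 1)
    rw [lift_monoid, lift_monoid, prod_ite, prod_ite, ← map_pow, ← map_pow] at h1
    have h2 := (Con.eq (gram 1)).1 h1 0 0 le_rfl
    rwa [ell_one, ell_one] at h2
  intro f
  let _ : CommSemigroup T := { i with mul_comm := hT }
  apply WithOne.coe_injective
  show ((FreeSemigroup.lift f e.1 : T) : WithOne T) = ((FreeSemigroup.lift f e.2 : T) : WithOne T)
  rw [lift_coe, lift_coe]
  exact (hperm.map _).prod_eq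

lemma sub_com : Sub (var (G 1)) Com := by
  intro T i hT a b
  have h := hT (⟨0, [1]⟩, ⟨1, [0]⟩) (fun f => G_one_comm (f 0) (f 1))
    (fun i => if i = 0 then a else b)
  exact h

lemma join_one : IsJoin (var Unit) Com (var (G 1)) := by
  refine ⟨isVariety_var _, fun T i hT e _ => ?_, com_sub, fun V' _ _ h => ?_⟩
  · exact hT e (fun f => rfl)
  · exact fun T i hT => h T i (sub_com T i hT)

/-- For `n ≥ 1` there is a finite monoid `F` with `var (G n) = var F` or
`var (G n) = var F ∨ Com` if and only if `n = 1`. Moreover, for `n ≥ 2`, for every semigroup `F`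
that satisfies an identity `x ^ (m + 1) = x ^ (m + k + 1)` with `k ≥ 1` (so for every finite
semigroup `F`) the grammic monoid `G n` does not belong to `var F ∨ Com`. -/
theorem result :
    (∀ n : ℕ, 1 ≤ n → ((∃ (F : Type) (_ : Monoid F), Finite F ∧
      (var (G n) = var F ∨ IsJoin (var F) Com (var (G n)))) ↔ n = 1)) ∧
    ∀ n : ℕ, 2 ≤ n → ∀ (F : Type) (_ : Semigroup F) (m k : ℕ), 1 ≤ k →
      Satisfies F (⟨0, List.replicate m 0⟩, ⟨0, List.replicate (m + k) 0⟩) →
      ∀ V : SgClass, IsJoin (var F) Com V → ¬ V (G n) inferInstance := by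
  refine ⟨fun n hn => ⟨?_, ?_⟩, fun n hn F _ m k hk h V hV => not_join hn F m k hk h V hV⟩
  · rintro ⟨F, i, hF, h⟩
    by_contra hne
    have hn2 : 2 ≤ n := by omega
    obtain ⟨m, k, hk, hmk⟩ := finite_pow F
    rcases h with h | h
    · have h1 : var F (G n) inferInstance := by
        rw [← h]
        exact mem_var (G n)
      exact not_satisfies hn2 m k hk (h1 _ (satisfies_of_pw hmk))
    · exact not_join hn2 F m k hk hmk _ h (mem_var (G n))
  · rintro rfl
    exact ⟨Unit, inferInstance, inferInstance, Or.inr join_one⟩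

end Pool.Agent.Results.MP_2928c2_al.OnlyRankOne
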